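import Mathlib

set_option autoImplicit false

namespace Pool.Agent.H.MP_d8fac8_al

universe u

/-- an injective group homomorphism preserving meets and joins -/
def LEmb {A B : Type*} [AddGroup A] [Lattice A] [AddGroup B] [Lattice B] (f : A →+ B) : Prop :=
  Function.Injective f ∧ ∀ x y, f (x ⊓ y) = f x ⊓ f y ∧ f (x ⊔ y) = f x ⊔ f y

/-- amalgamation base for lattice-ordered groups (written additively, not commutative) -/
def AmalgBase (A : Type) [AddGroup A] [Lattice A] : Prop :=
  ∀ (B : Type) [AddGroup B] [Lattice B] [AddLeftMono B] [AddRightMono B]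
    (C : Type) [AddGroup C] [Lattice C] [AddLeftMono C] [AddRightMono C]
    (f : A →+ B) (g : A →+ C), LEmb f → LEmb g →
    ∃ (D : Type u) (_ : AddGroup D) (_ : Lattice D) (_ : AddLeftMono D) (_ : AddRightMono D)
      (f' : B →+ D) (g' : C →+ D), LEmb f' ∧ LEmb g' ∧ f'.comp f = g'.comp g

end Pool.Agent.H.MP_d8fac8_al
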