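import Mathlib
import Pool.Agent.H.MP_d8fac8_al.Defs

set_option autoImplicit false

namespace Pool.Agent.H.MP_d8fac8_al

section abs

variable {D : Type*} [Group D] [Lattice D] [MulLeftMono D] [MulRightMono D]

lemma cj {x y : D} (h : D) (e : x ⊓ y = 1) : (h * x * h⁻¹) ⊓ (h * y * h⁻¹) = 1 := by
  rw [← inf_mul, ← mul_inf, e, mul_one, mul_inv_cancel]

lemma cm {x y : D} (e : x ⊓ y = 1) : x * y = y * x := by
  have : ∀ x y : D, x ⊓ y = 1 → x * y = y ⊔ x := fun x y e => by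
    have := congrArg (fun z => x * z⁻¹ * y) e
    simpa [inv_inf, mul_sup, sup_mul] using this.symm
  rw [this x y e, this y x (inf_comm x y ▸ e), sup_comm]

lemma p1 {x y : D} (e : x ⊓ y = 1) : 1 ≤ x := e ▸ inf_le_left
lemma p2 {x y : D} (e : x ⊓ y = 1) : 1 ≤ y := e ▸ inf_le_right

lemma dm {c x y : D} (e : c ⊓ x = 1) (e' : c ⊓ y = 1) : c ⊓ (x * y) = 1 := by
  have hc := p1 e
  refine le_antisymm ?_ (le_inf hc (one_le_mul (p2 e) (p2 e')))
  have : (c ⊓ x) * (c ⊓ y) = 1 := by rw [e, e', one_mul]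
  rw [← this, inf_mul, mul_inf, mul_inf]
  exact le_inf (le_inf (inf_le_left.trans (le_mul_of_one_le_left' hc))
    (inf_le_left.trans (le_mul_of_one_le_right' (p2 e'))))
    (le_inf (inf_le_left.trans (le_mul_of_one_le_left' (p2 e))) inf_le_right)

lemma dl {c x c' x' : D} (e : c ⊓ x = 1) (h1 : 1 ≤ c') (h2 : c' ≤ c) (h3 : 1 ≤ x') (h4 : x' ≤ x) :
    c' ⊓ x' = 1 := le_antisymm (e ▸ inf_le_inf h2 h4) (le_inf h1 h3)

lemma abs1 {a b g s c d v : D} (ab : a ⊓ b = 1) (hg : 1 ≤ g) (gb : g * a * g⁻¹ = b)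
    (sa : a ⊓ s = 1) (sb : b ⊓ (s⁻¹ * g ⊔ 1) = 1) (acd : a = c * d) (cd : c ⊓ d = 1)
    (cv : c ⊓ v = 1) (vd : v * d * v⁻¹ = b) (vb : v * b * v⁻¹ = d) : c = 1 := by
  have hc := p1 cd
  have hv := p2 cv
  have ca : c ≤ a := acd ▸ le_mul_of_one_le_right' (p2 cd)
  have da : d ≤ a := acd ▸ le_mul_of_one_le_left' hc
  have ag : g⁻¹ * b * g = a := by rw [← gb]; group
  have n1 := cj (g⁻¹ * v * v) sb
  rw [show g⁻¹ * v * v * b * (g⁻¹ * v * v)⁻¹ = g⁻¹ * (v * (v * b * v⁻¹) * v⁻¹) * g by group,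
    vb, vd, ag] at n1
  have n2 := cj (g⁻¹ * v) (dl sa (p2 cd) da (p2 sa) le_rfl)
  rw [show g⁻¹ * v * d * (g⁻¹ * v)⁻¹ = g⁻¹ * (v * d * v⁻¹) * g by group, vd, ag] at n2
  have n3 := dm (dm (dl n1 hc ca (p2 n1) le_rfl) (dm cv cv)) (dl n2 hc ca (p2 n2) le_rfl)
  have hm : 1 ≤ g⁻¹ * v * g := by
    simpa using mul_le_mul_left (mul_le_mul_right hv g⁻¹) g
  have n4 : c ⊓ (g⁻¹ * v * g) = 1 := dl n3 hc le_rfl hm (by
    calc g⁻¹ * v * g = g⁻¹ * v * v * s⁻¹ * 1 * 1 * (s * v⁻¹ * g) := by group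
      _ ≤ g⁻¹ * v * v * s⁻¹ * ((g * v⁻¹ * v⁻¹) * g * (g * v⁻¹ * v⁻¹)⁻¹) * v * (s * v⁻¹ * g) := by
        gcongr
        simpa using mul_le_mul_left (mul_le_mul_right hg (g * v⁻¹ * v⁻¹)) (g * v⁻¹ * v⁻¹)⁻¹
      _ = g⁻¹ * v * v * (s⁻¹ * g) * (g⁻¹ * v * v)⁻¹ * (v * v) * (g⁻¹ * v * s * (g⁻¹ * v)⁻¹) := by
        simp [mul_assoc]
      _ ≤ _ := by gcongr; exact le_sup_left)
  have n5 := cj g⁻¹ (dl ab (p2 cd) da (p2 ab) le_rfl)
  rw [inv_inv, ag, ← vb, ← gb, show g⁻¹ * (v * (g * a * g⁻¹) * v⁻¹) * g =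
    (g⁻¹ * v * g) * a * (g⁻¹ * v * g)⁻¹ by group] at n5
  have : c ≤ (g⁻¹ * v * g) * a * (g⁻¹ * v * g)⁻¹ := by
    rw [le_mul_inv_iff_mul_le, cm n4]; gcongr
  simpa using dl n5 hc this hc ca

lemma abs2 {a b g c d : D} (hg : 1 ≤ g) (gg : g * g = a) (gb : g = b * (g * b * g⁻¹) * b)
    (acd : a = c * d) (cd : c ⊓ d = 1) (cb : c ⊓ b = 1) : c = 1 := by
  have hc := p1 cd
  have hd := p2 cd
  have ga : g ≤ d * c := cm cd ▸ acd ▸ gg ▸ le_mul_of_one_le_left' hg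
  have g1 : 1 ≤ g ⊓ c := le_inf hg hc
  have g2 : 1 ≤ g * (g ⊓ c)⁻¹ := by simp
  have g3 : g * (g ⊓ c)⁻¹ ≤ d := by
    rw [inv_inf, mul_sup, mul_inv_cancel]
    exact sup_le hd (by rwa [mul_inv_le_iff_le_mul])
  have e1 := cj (g * (g ⊓ c)⁻¹) cb
  have c1 := cm (dl cd hc le_rfl g2 g3)
  have c2 := cm (dl cb g1 inf_le_right (p2 cb) le_rfl)
  rw [← c1, mul_inv_cancel_right, show g * (g ⊓ c)⁻¹ * b * (g * (g ⊓ c)⁻¹)⁻¹ =
    g * ((g ⊓ c)⁻¹ * (b * (g ⊓ c))) * g⁻¹ by group, ← c2, inv_mul_cancel_left] at e1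
  have := dm (dm cb e1) cb
  rw [← gb] at this
  have := dm this this
  rw [gg, acd] at this
  rwa [inf_eq_left.2 (le_mul_of_one_le_right' hd)] at this

end abs

lemma abs1' {D : Type*} [AddGroup D] [L : Lattice D] [l : AddLeftMono D] [r : AddRightMono D]
    {a b g s c d v : D} (ab : a ⊓ b = 0) (hg : 0 ⊓ g = 0) (gb : g + a + -g = b)
    (sa : a ⊓ s = 0) (sb : b ⊓ ((-s + g) ⊔ 0) = 0) (acd : a = c + d) (cd : c ⊓ d = 0)
    (cv : c ⊓ v = 0) (vd : v + d + -v = b) (vb : v + b + -v = d) : c = 0 := by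
  exact @abs1 (Multiplicative D) _ L ⟨l.1⟩ ⟨r.1⟩
    a b g s c d v ab (inf_eq_left.1 hg : 0 ≤ g) gb sa sb acd cd cv vd vb

lemma abs2' {D : Type*} [AddGroup D] [L : Lattice D] [l : AddLeftMono D] [r : AddRightMono D]
    {a b g c d : D} (hg : 0 ⊓ g = 0) (gg : g + g = a) (gb : g = b + (g + b + -g) + b)
    (acd : a = c + d) (cd : c ⊓ d = 0) (cb : c ⊓ b = 0) : c = 0 := by
  exact @abs2 (Multiplicative D) _ L ⟨l.1⟩ ⟨r.1⟩
    a b g c d (inf_eq_left.1 hg : 0 ≤ g) gg gb acd cd cb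

def P (Ω : Type) [LinearOrder Ω] := Ω ≃o Ω

namespace P

variable {Ω : Type} [LinearOrder Ω]

def o (f : P Ω) : Ω ≃o Ω := f

instance : AddGroup (P Ω) := inferInstanceAs (AddGroup (Additive (Ω ≃o Ω)))

lemma ext {f g : P Ω} (h : ∀ x, f.o x = g.o x) : f = g := RelIso.ext h

@[simp] lemma add_o (f g : P Ω) (x : Ω) : (f + g).o x = f.o (g.o x) := rfl
@[simp] lemma zero_o (x : Ω) : (0 : P Ω).o x = x := rfl
@[simp] lemma neg_o (f : P Ω) (x : Ω) : (-f).o x = f.o.symm x := rfl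

noncomputable instance : Lattice (P Ω) where
  le f g := ∀ x, f.o x ≤ g.o x
  le_refl _ _ := le_rfl
  le_trans _ _ _ p q x := (p x).trans (q x)
  le_antisymm _ _ p q := ext fun x => (p x).antisymm (q x)
  sup f g := StrictMono.orderIsoOfSurjective (fun x => max (f.o x) (g.o x))
    (fun _ _ h => max_lt_max (f.o.strictMono h) (g.o.strictMono h)) fun y => by
      rcases le_total (f.o.symm y) (g.o.symm y) with h | h
      · exact ⟨f.o.symm y, by simpa using g.o.le_symm_apply.1 h⟩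
      · exact ⟨g.o.symm y, by simpa using f.o.le_symm_apply.1 h⟩
  inf f g := StrictMono.orderIsoOfSurjective (fun x => min (f.o x) (g.o x))
    (fun _ _ h => min_lt_min (f.o.strictMono h) (g.o.strictMono h)) fun y => by
      rcases le_total (f.o.symm y) (g.o.symm y) with h | h
      · exact ⟨g.o.symm y, by simpa using f.o.symm_apply_le.1 h⟩
      · exact ⟨f.o.symm y, by simpa using g.o.symm_apply_le.1 h⟩
  le_sup_left _ _ _ := le_max_left _ _
  le_sup_right _ _ _ := le_max_right _ _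
  sup_le _ _ _ p q x := max_le (p x) (q x)
  inf_le_left _ _ _ := min_le_left _ _
  inf_le_right _ _ _ := min_le_right _ _
  le_inf _ _ _ p q x := le_min (p x) (q x)

@[simp] lemma sup_o (f g : P Ω) (x : Ω) : (f ⊔ g).o x = max (f.o x) (g.o x) := rfl
@[simp] lemma inf_o (f g : P Ω) (x : Ω) : (f ⊓ g).o x = min (f.o x) (g.o x) := rfl

instance : AddLeftMono (P Ω) := ⟨fun f _ _ h x => f.o.monotone (h x)⟩
instance : AddRightMono (P Ω) := ⟨fun f _ _ h x => h (f.o x)⟩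

end P

variable {β : Type} [LinearOrder β]

def W (σ : β ≃o β) (φ : β → ℤ) : P (β ×ₗ ℤ) where
  toFun x := toLex (σ (ofLex x).1, (ofLex x).2 + φ (ofLex x).1)
  invFun x := toLex (σ.symm (ofLex x).1, (ofLex x).2 - φ (σ.symm (ofLex x).1))
  left_inv x := by simp
  right_inv x := by simp
  map_rel_iff' {x y} := by
    simp only [Equiv.coe_fn_mk, Prod.Lex.le_iff, ofLex_toLex, OrderIso.lt_iff_lt,
      EmbeddingLike.apply_eq_iff_eq]
    exact or_congr_right (and_congr_right fun h => by simp [h])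

@[simp] lemma W_o (σ : β ≃o β) (φ : β → ℤ) (q : β) (n : ℤ) :
    (W σ φ).o (toLex (q, n)) = toLex (σ q, n + φ q) := rfl
@[simp] lemma W_o' (σ : β ≃o β) (φ : β → ℤ) (q : β) (n : ℤ) :
    (W σ φ).o.symm (toLex (q, n)) = toLex (σ.symm q, n - φ (σ.symm q)) := rfl

lemma ext2 {f g : P (β ×ₗ ℤ)} (h : ∀ q n, f.o (toLex (q, n)) = g.o (toLex (q, n))) : f = g :=
  P.ext fun x => h x.1 x.2

lemma mn (q : β) : Monotone fun n : ℤ => toLex (q, n) := fun _ _ h =>
  Prod.Lex.le_iff.2 (.inr ⟨rfl, h⟩)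

def E (χ : β → Fin 3) : ℤ × ℤ →+ P (β ×ₗ ℤ) :=
  AddMonoidHom.mk' (fun x => W (OrderIso.refl β) fun q => ![x.1, x.2, 0] (χ q)) fun x y =>
    ext2 fun q n => by
      simp only [W_o, P.add_o, OrderIso.refl_apply]
      generalize χ q = i
      fin_cases i <;> simp <;> ring

@[simp] lemma E_o (χ : β → Fin 3) (x : ℤ × ℤ) (q : β) (n : ℤ) :
    (E χ x).o (toLex (q, n)) = toLex (q, n + ![x.1, x.2, 0] (χ q)) := rfl

lemma E_emb (χ : β → Fin 3) (p q : β) (hp : χ p = 0) (hq : χ q = 1) : LEmb (E χ) := by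
  refine ⟨fun x y h => ?_, fun x y => ⟨ext2 fun q n => ?_, ext2 fun q n => ?_⟩⟩
  · have h0 := congrArg (fun z => z.o (toLex (p, 0))) h
    have h1 := congrArg (fun z => z.o (toLex (q, 0))) h
    simp [hp, hq] at h0 h1
    exact Prod.ext h0 h1
  · simp only [E_o, P.inf_o, ← (mn q).map_min]
    generalize χ q = i
    fin_cases i <;> simp [min_add_add_left]
  · simp only [E_o, P.sup_o, ← (mn q).map_max]
    generalize χ q = i
    fin_cases i <;> simp [max_add_add_left]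

lemma ml {p q : β} {m n : ℤ} (h : p < q) : min (toLex (p, m)) (toLex (q, n)) = toLex (p, m) :=
  min_eq_left (Prod.Lex.le_iff.2 (.inl h))

def χ1 (q : ℚ) : Fin 3 := if q = 0 then 0 else if q = 1 then 1 else 2

noncomputable def σ1 : ℚ ≃o ℚ := StrictMono.orderIsoOfSurjective (fun q => max q (2 * q))
  (fun _ _ h => max_lt_max h (by linarith)) fun y => by
    rcases le_total y 0 with h | h
    · exact ⟨y, max_eq_left (by linarith)⟩
    · exact ⟨y / 2, (max_eq_right (by linarith)).trans (by ring)⟩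

lemma σ1_apply (q : ℚ) : σ1 q = max q (2 * q) := rfl

def χ2 : WithBot ℤ → Fin 3
  | ⊥ => 0
  | (k : ℤ) => if Even k then 0 else 1

def φc : WithBot ℤ → ℤ
  | ⊥ => 1
  | (_ : ℤ) => 0

def φd : WithBot ℤ → ℤ
  | ⊥ => 0
  | (k : ℤ) => if Even k then 1 else 0

noncomputable def σ2 : WithBot ℤ ≃o WithBot ℤ := (OrderIso.addRight 1).withBotCongr

theorem main1 : ¬ AmalgBase (ℤ × ℤ) := fun h => by
  obtain ⟨D, _, _, _, _, f, g, ⟨-, hf⟩, ⟨gi, hg⟩, e⟩ := h _ _ (E χ1) (E χ2)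
    (E_emb _ 0 1 (by simp [χ1]) (by simp [χ1])) (E_emb _ ⊥ (1 : ℤ) rfl (by simp [χ2]))
  have e' : ∀ x, f (E χ1 x) = g (E χ2 x) := fun x => DFunLike.congr_fun e x
  have := abs1' (a := f (E χ1 (1, 0))) (b := f (E χ1 (0, 1)))
    (g := f (W (OrderIso.addRight 1) 0)) (s := f (W σ1 0)) (c := g (W (OrderIso.refl _) φc))
    (d := g (W (OrderIso.refl _) φd)) (v := g (W σ2 0)) ?_ ?_ ?_ ?_ ?_ ?_ ?_ ?_ ?_ ?_
  · have := congrArg (fun z => z.o (toLex (⊥, 0))) (gi (this.trans g.map_zero.symm))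
    simp [φc] at this
  · rw [← (hf _ _).1, ← f.map_zero]
    refine congrArg f (ext2 fun q n => ?_)
    simp only [E_o, P.inf_o, ← (mn q).map_min, P.zero_o]
    generalize χ1 q = i
    fin_cases i <;> simp
  · rw [← f.map_zero, ← (hf _ _).1]
    exact congrArg f (ext2 fun q n => by simp [ml])
  · rw [← f.map_neg, ← f.map_add, ← f.map_add]
    refine congrArg f (ext2 fun q n => ?_)
    simp [χ1, add_neg_eq_zero]
    split_ifs <;> simp_all
  · rw [← f.map_zero, ← (hf _ _).1]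
    refine congrArg f (ext2 fun q n => ?_)
    simp only [E_o, P.inf_o, W_o, P.zero_o, σ1_apply, χ1]
    rcases lt_trichotomy q 0 with h | rfl | h
    · rw [max_eq_left (by linarith), ← (mn q).map_min]; simp [h.ne, (h.trans one_pos).ne]
    · simp [← (mn (0 : ℚ)).map_min]
    · rw [max_eq_right (by linarith), ml (by linarith)]
      simp only [h.ne', if_false]
      split_ifs <;> simp
  · rw [← f.map_neg, ← f.map_add, ← f.map_zero, ← (hf _ _).2, ← (hf _ _).1]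
    refine congrArg f (ext2 fun q n => ?_)
    simp only [E_o, P.inf_o, P.sup_o, P.add_o, P.neg_o, W_o, W_o', P.zero_o, χ1]
    by_cases h : q = 1
    · have : σ1.symm (1 + 1) = 1 := by rw [OrderIso.symm_apply_eq, σ1_apply]; norm_num
      simp [h, this, ← (mn (1 : ℚ)).map_min]
    · rw [min_eq_left] <;> simp only [h, if_false] <;> split_ifs <;> simp
  · rw [e', ← g.map_add]
    refine congrArg g (ext2 fun q n => ?_)
    induction q using WithBot.recBotCoe <;> simp [χ2, φc, φd]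
    split_ifs <;> simp
  · rw [← g.map_zero, ← (hg _ _).1]
    refine congrArg g (ext2 fun q n => ?_)
    simp only [P.inf_o, W_o, OrderIso.refl_apply, ← (mn q).map_min, P.zero_o]
    induction q using WithBot.recBotCoe <;> simp [φc, φd]
    split_ifs <;> simp
  · rw [← g.map_zero, ← (hg _ _).1]
    refine congrArg g (ext2 fun q n => ?_)
    induction q using WithBot.recBotCoe with
    | bot => simp [φc, σ2, ← (mn (⊥ : WithBot ℤ)).map_min]
    | coe k => simp [φc, σ2, Prod.Lex.le_iff]; left; norm_cast; omega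
  · rw [e', ← g.map_neg, ← g.map_add, ← g.map_add]
    refine congrArg g (ext2 fun q n => ?_)
    induction q using WithBot.recBotCoe with
    | bot => simp [χ2, σ2, φd]
    | coe k =>
      have : σ2.symm k = (k - 1 : ℤ) := rfl
      simp only [P.add_o, P.neg_o, W_o, W_o', E_o, this, OrderIso.refl_apply, χ2, φd,
        Int.even_sub_one]
      rw [← this]
      split_ifs <;> simp
  · rw [e', ← g.map_neg, ← g.map_add, ← g.map_add]
    refine congrArg g (ext2 fun q n => ?_)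
    induction q using WithBot.recBotCoe with
    | bot => simp [χ2, σ2, φd]
    | coe k =>
      have : σ2.symm k = (k - 1 : ℤ) := rfl
      simp only [P.add_o, P.neg_o, W_o, W_o', E_o, this, OrderIso.refl_apply, χ2, φd,
        Int.even_sub_one]
      rw [← this]
      split_ifs <;> simp

abbrev I := {t : ℝ // Irrational t}

noncomputable def T0 (x : ℤ ×ₗ ℤ) : P (ℤ ×ₗ I) where
  toFun y := toLex ((ofLex y).1 + (ofLex x).1,
    ⟨(ofLex y).2 + (ofLex x).2, (ofLex y).2.2.add_intCast _⟩)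
  invFun y := toLex ((ofLex y).1 - (ofLex x).1,
    ⟨(ofLex y).2 - (ofLex x).2, (ofLex y).2.2.sub_intCast _⟩)
  left_inv y := by simp
  right_inv y := by simp
  map_rel_iff' {y z} := by simp [Prod.Lex.le_iff, ← Subtype.coe_le_coe]

lemma T0_o (x : ℤ ×ₗ ℤ) (k : ℤ) (t : I) : (T0 x).o (toLex (k, t)) =
    toLex (k + (ofLex x).1, ⟨t + (ofLex x).2, t.2.add_intCast _⟩) := rfl

lemma ext3 {f g : P (ℤ ×ₗ I)} (h : ∀ q n, f.o (toLex (q, n)) = g.o (toLex (q, n))) : f = g :=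
  P.ext fun x => h x.1 x.2

noncomputable def Tr : ℤ ×ₗ ℤ →+ P (ℤ ×ₗ I) := AddMonoidHom.mk' T0 fun x y => ext3 fun k t => by
  simp [T0_o, add_comm, add_left_comm]

lemma Tr_o (x : ℤ ×ₗ ℤ) (k : ℤ) (t : I) : (Tr x).o (toLex (k, t)) =
    toLex (k + (ofLex x).1, ⟨t + (ofLex x).2, t.2.add_intCast _⟩) := rfl

lemma Tr_mono : StrictMono Tr := fun x y h => by
  have : ∀ k t, (Tr x).o (toLex (k, t)) < (Tr y).o (toLex (k, t)) := fun k t => by
    simpa [Tr_o, Prod.Lex.lt_iff, ← Subtype.coe_lt_coe] using h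
  exact lt_of_le_of_ne (fun z => (this z.1 z.2).le) fun e =>
    (this 0 ⟨_, irrational_sqrt_two⟩).ne (by rw [e])

lemma emb_of {B : Type*} [AddGroup B] [Lattice B] (f : ℤ ×ₗ ℤ →+ B) (h : StrictMono f) : LEmb f :=
  ⟨h.injective, fun x y => ⟨h.monotone.map_inf x y, h.monotone.map_sup x y⟩⟩

open Classical in
noncomputable def G : P (ℤ ×ₗ I) where
  toFun y := toLex ((ofLex y).1 + if (0 : ℝ) < (ofLex y).2 then 1 else 0,
    ⟨-((ofLex y).2 : ℝ)⁻¹, (ofLex y).2.2.inv.neg⟩)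
  invFun y := toLex ((ofLex y).1 - if ((ofLex y).2 : ℝ) < 0 then 1 else 0,
    ⟨-((ofLex y).2 : ℝ)⁻¹, (ofLex y).2.2.inv.neg⟩)
  left_inv y := by simp
  right_inv y := by simp
  map_rel_iff' {y z} := by
    simp only [Equiv.coe_fn_mk, Prod.Lex.le_iff, ofLex_toLex, ← Subtype.coe_le_coe, neg_le_neg_iff]
    generalize (ofLex y).1 = k, (ofLex z).1 = l, (ofLex y).2 = s, (ofLex z).2 = t
    rcases s.2.ne_zero.lt_or_gt with hs | hs <;> rcases t.2.ne_zero.lt_or_gt with ht | ht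
    · simp [hs.not_gt, ht.not_gt, inv_le_inv_of_neg ht hs]
    · simp only [hs.not_gt, ht, ((inv_lt_zero.2 hs).trans (inv_pos.2 ht)).not_ge, (hs.trans ht).le,
        if_true, if_false, and_true, and_false, or_false]
      constructor <;> intro <;> omega
    · simp only [ht.not_gt, hs, ((inv_lt_zero.2 ht).trans (inv_pos.2 hs)).le, (ht.trans hs).not_ge,
        if_true, if_false, and_true, and_false, or_false]
      constructor <;> intro <;> omega
    · simp [hs, ht, inv_le_inv₀ ht hs]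

open Classical in
lemma G_o (k : ℤ) (t : I) : G.o (toLex (k, t)) =
    toLex (k + if (0 : ℝ) < t then 1 else 0, ⟨-(t : ℝ)⁻¹, t.2.inv.neg⟩) := rfl

open Classical in
lemma G_o' (k : ℤ) (t : I) : G.o.symm (toLex (k, t)) =
    toLex (k - if (t : ℝ) < 0 then 1 else 0, ⟨-(t : ℝ)⁻¹, t.2.inv.neg⟩) := rfl

def E2 : ℤ ×ₗ ℤ →+ (ℤ ×ₗ ℤ) × ℤ := AddMonoidHom.mk' (fun x => (x, (ofLex x).1)) fun _ _ => rfl

lemma E2_mono : StrictMono E2 := fun x y h =>
  Prod.lt_iff.2 (.inl ⟨h, Prod.Lex.monotone_fst _ _ h.le⟩)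

theorem main2 : ¬ AmalgBase (ℤ ×ₗ ℤ) := fun h => by
  obtain ⟨D, _, _, _, _, f, g, ⟨-, hf⟩, ⟨gi, hg⟩, e⟩ := h _ _ Tr E2 (emb_of _ Tr_mono)
    (emb_of _ E2_mono)
  have e' : ∀ x, f (Tr x) = g (E2 x) := fun x => DFunLike.congr_fun e x
  have := abs2' (a := f (Tr (toLex (1, 0)))) (b := f (Tr (toLex (0, 1)))) (g := f G)
    (c := g (0, 1)) (d := g (toLex (1, 0), 0)) ?_ ?_ ?_ ?_ ?_ ?_
  · simpa using gi (this.trans g.map_zero.symm)
  · rw [← f.map_zero, ← (hf _ _).1]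
    refine congrArg f (ext3 fun k t => min_eq_left ?_)
    rcases t.2.ne_zero.lt_or_gt with ht | ht
    · simpa [G_o, Prod.Lex.le_iff, ht.not_gt, ← Subtype.coe_le_coe] using
        ht.le.trans (neg_pos.2 (inv_lt_zero.2 ht)).le
    · simp [G_o, Prod.Lex.le_iff, ht]
  · rw [← f.map_add]
    refine congrArg f (ext3 fun k t => ?_)
    rcases t.2.ne_zero.lt_or_gt with ht | ht <;> simp [G_o, Tr_o, ht, ht.not_gt]
  · rw [← f.map_neg, ← f.map_add, ← f.map_add, ← f.map_add, ← f.map_add]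
    refine congrArg f (ext3 fun k t => ?_)
    have h0 := t.2.ne_zero
    have h1 := (t.2.add_intCast 1).ne_zero
    simp only [P.add_o, P.neg_o, G_o, G_o', Tr_o, ofLex_toLex, Int.cast_one, add_zero] at h1 ⊢
    have e1 : -((t : ℝ) + 1)⁻¹ + 1 = t / (t + 1) := by field_simp; ring
    simp only [e1, toLex_inj, Prod.mk.injEq, Subtype.mk.injEq]
    refine ⟨?_, by field_simp; ring⟩
    rcases h1.lt_or_gt with h2 | h2
    · have : (t : ℝ) < 0 := by linarith
      simp [h2, this.not_gt, div_pos_of_neg_of_neg this h2]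
    · simp [h2, h2.not_gt]
  · rw [e', ← g.map_add]; rfl
  · rw [← (hg _ _).1, ← g.map_zero]; rfl
  · rw [e', ← (hg _ _).1, ← g.map_zero]; rfl

end Pool.Agent.H.MP_d8fac8_al
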